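import Pool.Agent.TH131.Ord.Dense

/-!
# Dense ordinary points and finite families of cubic hypersurfaces
-/

set_option autoImplicit false

open CategoryTheory AlgebraicGeometry

namespace Pool.Agent.Results.MP_adc574_ag.CubicFamilies

open Pool.Agent.TH90.Cub Pool.Agent.TH590.JH Pool.Agent.TH131.Ord

universe v u

/-- **Dense ordinary points and cubic hypersurfaces.** Let `A` be a domain of characteristic `0`,
finitely generated as a ring, `F` its field of fractions, `S` a subset of `F` containing `1` which
generates the field `F`. The following are equivalent:

* for every smooth projective scheme `X` over `F`, the closed points of `Spec A` where `X` is ordinary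
  are dense in `Spec A`;
* for every finite family of hypersurfaces `C` with an equation `g_0 t_0 + ⋯ + g_r t_r = 1` in the
  affine space over `F` with the coordinates `x_1, …, x_n, t_0, …, t_r`, each `g_i` being of the form
  `x_a x_b - x_c`, `x_a + x_b - x_c` or `x_a - s`, `s ∈ S`, and degrees `j`, the closed points of
  `Spec A` are dense where for all members of the family the Newton polygon of `H_c^j(C)` is its
  Hodge polygon.

If they hold, then for every finite family of separated schemes of finite type over `F` the closed
points of `Spec A` are dense where the Newton polygons of all their cohomology groups with compact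
supports are the Hodge polygons. The hypersurfaces `C` are smooth over `F`. -/
theorem result (A : Type) [CommRing A] [IsDomain A] [CharZero A] [Algebra.FiniteType ℤ A]
    (F : Type) [Field F] [Algebra A F] [IsFractionRing A F] (S : Set F)
    (hS : Subfield.closure S = ⊤) (h1 : (1 : F) ∈ S) {𝓐 : Type u} [Category.{v} 𝓐] [Abelian 𝓐]
    (T : WeightTheory F 𝓐) (𝒮 : Slopes T.toTheory (openSets A)) (hfin : IsFinite T.toTheory) :
    (𝒮.ForProjective (DensePoints A) ↔ 𝒮.ForCubics S (DensePoints A)) ∧
    (𝒮.ForProjective (DensePoints A) → 𝒮.ForFamilies (DensePoints A)) ∧
    CubicsSmooth F := by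
  have h := main T 𝒮 hfin _ (stable_dense A) hS h1
  exact ⟨h.1, h.2, cubicsSmooth F⟩

end Pool.Agent.Results.MP_adc574_ag.CubicFamilies
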