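import Pool.Agent.TH30.Ord.SpreadMain

/-!
# Dense ordinary reduction from a dense set of points with values in number fields

`A` is a finitely generated domain over `ℤ` of characteristic `0`, and `X` is smooth and projective over
`A`. For a closed point `s` of `Spec A` the polynomial `F s` is the characteristic polynomial of Frobenius
on the cohomology of the fibre `X_s` (the sum of all degrees, or one degree), and `H` are the Hodge slopes
of `X`, with multiplicity.

Suppose that the points of `Spec A` with values in number fields `K` at which the cohomology of the
fibre is a sum of motives `M i` with multiplication by totally real or CM fields which satisfy the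
orbit condition of the starting files, for a common element of the Galois group of `K`, are dense in
`Spec A`: every nonzero `a` is nonzero at one of these points. (The fields of multiplications, the motives
and `K` may vary with the point. For instance the fibres may be isogenous to products of elliptic curves,
abelian surfaces, abelian varieties with complex multiplication, of type `GL₂`, with multiplication by an
imaginary quadratic field and signature `(1, n - 1)` or `(2, 2)`; their cohomology may consist of Tate
motives, motives of K3 type with real multiplication, and so on. By the Nullstellensatz the points with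
values in number fields are dense, so that the assumption holds if it holds at all points of this kind of
a nonempty open subset.)

Theorem. For every nonempty open subset `U` of `Spec A` the set of the prime numbers `p` for which `U`
contains a closed point `s` with residue field `𝔽_p` such that the Newton polygon of `X_s` is the Hodge
polygon has positive lower density. In particular these closed points are dense in `Spec A`.

(For almost all `s` the crystalline cohomology of `X_s` is torsion free, the Hodge numbers are constant,
and `X_s` is ordinary in the sense of Bloch and Kato if and only if its Newton and Hodge polygons agree in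
all degrees.)
-/

set_option autoImplicit false

namespace Pool.Agent.Results.MP_adc574_ag.DenseOrdinaryPoints

open NumberField IsDedekindDomain Polynomial
open Pool.Agent.W401.Cheb Pool.Agent.W528.Ord Pool.Agent.TH30.Ord

theorem result (A : Type) [CommRing A] [IsDomain A] [Algebra.FiniteType ℤ A]
    -- the Frobenius polynomials of the fibres at the closed points, and the Hodge slopes
    (F : Ideal A → ℤ[X]) (H : Multiset ℕ)
    (h : ∀ a : A, a ≠ 0 → ∃ (K : Type) (_ : Field K) (_ : NumberField K) (φ : A →+* K),
      φ a ≠ 0 ∧ AdmissiblePoint F H φ) :
    (∀ U : Set (PrimeSpectrum A), IsOpen U → U.Nonempty →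
      0 < lowerDensity fun v : HeightOneSpectrum (𝓞 ℚ) =>
        ∃ x ∈ U, OrdinaryPoint F H (Ideal.absNorm v.asIdeal) x.asIdeal) ∧
    Dense {x : PrimeSpectrum A | ∃ p : ℕ, OrdinaryPoint F H p x.asIdeal} := by
  have key : ∀ U : Set (PrimeSpectrum A), IsOpen U → U.Nonempty →
      0 < lowerDensity fun v : HeightOneSpectrum (𝓞 ℚ) =>
        ∃ x ∈ U, OrdinaryPoint F H (Ideal.absNorm v.asIdeal) x.asIdeal := by
    rintro U hU ⟨x, hx⟩
    obtain ⟨_, ⟨a, rfl⟩, hxa, haU⟩ :=
      PrimeSpectrum.isTopologicalBasis_basic_opens.isOpen_iff.mp hU x hx
    have ha0 : a ≠ 0 := by
      rintro rfl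
      exact hxa (x.asIdeal.zero_mem)
    obtain ⟨K, hK1, hK2, φ, hφa, hφ⟩ := h a ha0
    refine lt_of_lt_of_le (spread F H φ hφ a hφa) ?_
    apply lowerDensity_mono
    rintro v ⟨hv, s, has, hs⟩
    haveI := hs.1.isPrime
    exact ⟨⟨s, inferInstance⟩, haU has, hs⟩
  refine ⟨key, ?_⟩
  rw [dense_iff_inter_open]
  intro U hU hne
  by_contra hcon
  have h0 := key U hU hne
  have e : (fun v : HeightOneSpectrum (𝓞 ℚ) =>
      ∃ x ∈ U, OrdinaryPoint F H (Ideal.absNorm v.asIdeal) x.asIdeal) = fun _ => False := by
    funext v
    apply propext
    constructor
    · rintro ⟨x, hx, hs⟩
      exact hcon ⟨x, hx, _, hs⟩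
    · exact False.elim
  rw [e] at h0
  have h1 : ratio (fun _ : HeightOneSpectrum (𝓞 ℚ) => False) = fun _ => 0 := by
    funext N
    unfold ratio
    have : IsEmpty {v : HeightOneSpectrum (𝓞 ℚ) // Ideal.absNorm v.asIdeal ≤ N ∧ False} :=
      ⟨fun v => v.2.2⟩
    rw [Nat.card_of_isEmpty, Nat.cast_zero, zero_div]
  unfold lowerDensity at h0
  rw [h1, Filter.liminf_const] at h0
  exact lt_irrefl _ h0

end Pool.Agent.Results.MP_adc574_ag.DenseOrdinaryPoints
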